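import Pool.Agent.Q173.LB.Main

/-!
# Proportions of L²-homology
-/

set_option autoImplicit false

namespace Pool.Agent.Q173.LB

universe u

/-- A class `V` of finite cell complexes `X` with a dimension, the number of cells, real numbers
`b X k` and products, and three objects: a point, the interval, the closed surface of genus 2.
Intended: `V` is the class of the compact aspherical manifolds with boundary (triangulated or with
another finite CW structure) and `b X k` is the `k`-th L²-Betti number. -/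
structure CellData (V : Type u) where
  dim : V → ℕ
  cells : V → ℕ
  b : V → ℕ → ℝ
  prod : V → V → V
  pt : V
  int : V
  surf : V

variable {V : Type u} (D : CellData V)

/-- Some `X` in `V` of dimension `n` has `b X k ≠ 0`. -/
def CellData.Nonzero (n k : ℕ) : Prop := ∃ X, D.dim X = n ∧ D.b X k ≠ 0

/-- The least dimension of the `X` with `b X k ≠ 0`. -/
noncomputable def CellData.least (k : ℕ) : ℕ := sInf {n | D.Nonzero n k}

/-- The known properties: the Künneth formula, the L²-Betti numbers of the point, the interval and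
the surface, and the vanishing of the top L²-Betti number in positive dimensions. -/
structure CellData.IsKnown : Prop where
  cells_pos : ∀ X, 1 ≤ D.cells X
  nonneg : ∀ X k, 0 ≤ D.b X k
  dim_prod : ∀ X Y, D.dim (D.prod X Y) = D.dim X + D.dim Y
  cells_prod : ∀ X Y, D.cells (D.prod X Y) = D.cells X * D.cells Y
  kunneth : ∀ X Y k l, D.b X k * D.b Y l ≤ D.b (D.prod X Y) (k + l)
  pt_dim : D.dim D.pt = 0
  pt_cells : D.cells D.pt = 1
  pt_b : D.b D.pt 0 = 1
  int_dim : D.dim D.int = 1
  int_cells : D.cells D.int = 3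
  int_b : D.b D.int 0 = 1
  surf_dim : D.dim D.surf = 2
  surf_cells : D.cells D.surf = 6
  surf_b : D.b D.surf 1 = 2
  top : ∀ X k, k ≠ 0 → D.b X k ≠ 0 → k + 1 ≤ D.dim X

namespace CellData.IsKnown

variable {D} (h : D.IsKnown)

include h

lemma cells_posR (X : V) : (1 : ℝ) ≤ D.cells X := by exact_mod_cast h.cells_pos X

/-- The pairs (dimension, degree) in which the proportion of L²-homology is at least `lam ^ -n`. -/
def range {lam : ℝ} (hlam : 3 ≤ lam) : AddSubmonoid (ℕ × ℕ) where
  carrier := {x | ∃ X, D.dim X = x.1 ∧ (D.cells X : ℝ) ≤ lam ^ x.1 * D.b X x.2}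
  zero_mem' := ⟨D.pt, h.pt_dim, by simp [h.pt_cells, h.pt_b]⟩
  add_mem' := by
    rintro x y ⟨X, hX, hX'⟩ ⟨Y, hY, hY'⟩
    refine ⟨D.prod X Y, by rw [h.dim_prod, hX, hY]; rfl, ?_⟩
    rw [h.cells_prod]
    have hlam0 : (0 : ℝ) ≤ lam := by linarith
    have h1 : (0 : ℝ) ≤ lam ^ x.1 * D.b X x.2 := mul_nonneg (pow_nonneg hlam0 _) (h.nonneg _ _)
    calc ((D.cells X * D.cells Y : ℕ) : ℝ) = (D.cells X : ℝ) * D.cells Y := by push_cast; ring
      _ ≤ (lam ^ x.1 * D.b X x.2) * (lam ^ y.1 * D.b Y y.2) :=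
        mul_le_mul hX' hY' (by positivity) h1
      _ = lam ^ (x + y).1 * (D.b X x.2 * D.b Y y.2) := by
        rw [Prod.fst_add, pow_add]; ring
      _ ≤ lam ^ (x + y).1 * D.b (D.prod X Y) (x + y).2 :=
        mul_le_mul_of_nonneg_left (h.kunneth _ _ _ _) (pow_nonneg hlam0 _)

lemma mem_range {lam : ℝ} (hlam : 3 ≤ lam) (n k : ℕ) : (n, k) ∈ h.range hlam ↔
    ∃ X, D.dim X = n ∧ (D.cells X : ℝ) ≤ lam ^ n * D.b X k := Iff.rfl

lemma isRange {lam : ℝ} (hlam : 3 ≤ lam) : IsRange (h.range hlam) where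
  interval := ⟨D.int, h.int_dim, by simp [h.int_cells, h.int_b, hlam]⟩
  surface := ⟨D.surf, h.surf_dim, by
    simp only [h.surf_cells, h.surf_b]
    push_cast
    nlinarith⟩
  top := by
    rintro n k ⟨X, hX, hX'⟩ hk
    have h1 := h.cells_posR X
    have h2 : D.b X k ≠ 0 := by
      intro h0
      simp only [h0, mul_zero] at hX'
      linarith
    have h3 := h.top X k hk h2
    have h4 : D.dim X = n := hX
    omega

/-- Every nonzero L²-Betti number is visible for some `lam`. -/
lemma exists_lam (X : V) (k : ℕ) (hk : k ≠ 0) (hb : D.b X k ≠ 0) :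
    ∃ lam : ℝ, ∃ hlam : 3 ≤ lam, (D.dim X, k) ∈ h.range hlam := by
  have hpos : 0 < D.b X k := lt_of_le_of_ne (h.nonneg X k) (Ne.symm hb)
  have h1 := h.top X k hk hb
  refine ⟨max 3 (D.cells X / D.b X k), le_max_left _ _, X, rfl, ?_⟩
  set lam : ℝ := max 3 (D.cells X / D.b X k) with hlam
  have h3 : (1 : ℝ) ≤ lam := le_trans (by norm_num) (le_max_left _ _)
  have h4 : lam ≤ lam ^ (D.dim X) := le_self_pow₀ h3 (by omega)
  have h5 : D.cells X / D.b X k ≤ lam ^ D.dim X := (le_max_right _ _).trans h4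
  rw [div_le_iff₀ hpos] at h5
  exact h5

/-- The pairs (dimension, degree) of nonzero L²-Betti numbers. -/
def full : AddSubmonoid (ℕ × ℕ) where
  carrier := {x | D.Nonzero x.1 x.2}
  zero_mem' := ⟨D.pt, h.pt_dim, by
    show D.b D.pt 0 ≠ 0
    rw [h.pt_b]; norm_num⟩
  add_mem' := by
    rintro x y ⟨X, hX, hX'⟩ ⟨Y, hY, hY'⟩
    refine ⟨D.prod X Y, by rw [h.dim_prod, hX, hY]; rfl, ?_⟩
    have h1 : 0 < D.b X x.2 := lt_of_le_of_ne (h.nonneg _ _) (Ne.symm hX')
    have h2 : 0 < D.b Y y.2 := lt_of_le_of_ne (h.nonneg _ _) (Ne.symm hY')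
    exact ((mul_pos h1 h2).trans_le (h.kunneth _ _ _ _)).ne'

lemma mem_full (n k : ℕ) : (n, k) ∈ h.full ↔ D.Nonzero n k := Iff.rfl

lemma full_isRange : IsRange h.full where
  interval := ⟨D.int, h.int_dim, by
    show D.b D.int 0 ≠ 0
    rw [h.int_b]; norm_num⟩
  surface := ⟨D.surf, h.surf_dim, by
    show D.b D.surf 1 ≠ 0
    rw [h.surf_b]; norm_num⟩
  top := by
    rintro n k ⟨X, hX, hX'⟩ hk
    have h3 := h.top X k hk hX'
    have h4 : D.dim X = n := hX
    omega

lemma low_full (k : ℕ) : low h.full k = D.least k := rfl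

/-- The question and the proportions of L²-homology. -/
theorem question_iff : (∀ X k, D.dim X < 2 * k → D.b X k = 0) ↔
    ∀ c : ℝ, ∀ ε : ℝ, 0 < ε → ∀ M : ℕ, ∃ k, M ≤ k ∧
      ∀ X, (D.dim X : ℝ) < (2 - ε) * k →
        D.b X k < Real.exp (-c * D.dim X) * D.cells X := by
  constructor
  · intro hQ c ε hε M
    refine ⟨M, le_rfl, fun X hX => ?_⟩
    have h1 : D.dim X < 2 * M := by
      have h0 : (0 : ℝ) ≤ M := Nat.cast_nonneg _
      have : (D.dim X : ℝ) < 2 * M := by nlinarith
      exact_mod_cast this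
    rw [hQ X M h1]
    have := h.cells_posR X
    positivity
  · intro hQ X k hXk
    by_contra hb
    have hk : k ≠ 0 := by omega
    obtain ⟨lam, hlam, hmem⟩ := h.exists_lam X k hk hb
    have hnot : ¬ ∀ n k, (n, k) ∈ h.range hlam → 2 * k ≤ n := by
      intro h0
      have := h0 _ _ hmem
      omega
    apply hnot
    apply ((h.isRange hlam).question.out 0 1).2
    intro ε hε M
    obtain ⟨k', hk', hk''⟩ := hQ (Real.log lam) ε hε M
    refine ⟨k', hk', ?_⟩
    rintro n ⟨Y, hY, hY'⟩
    by_contra hlt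
    push Not at hlt
    simp only at hY hY'
    subst hY
    have h1 := hk'' Y hlt
    have hlam0 : (0 : ℝ) < lam := by linarith
    have h2 : Real.exp (-Real.log lam * D.dim Y) = (lam ^ D.dim Y)⁻¹ := by
      rw [neg_mul, Real.exp_neg, mul_comm, Real.exp_nat_mul, Real.exp_log hlam0]
    rw [h2] at h1
    have h3 : (0 : ℝ) < lam ^ D.dim Y := by positivity
    have h4 : D.b Y k' * lam ^ D.dim Y < D.cells Y := by
      calc D.b Y k' * lam ^ D.dim Y < (lam ^ D.dim Y)⁻¹ * D.cells Y * lam ^ D.dim Y :=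
            mul_lt_mul_of_pos_right h1 h3
        _ = D.cells Y := by field_simp
    linarith

end CellData.IsKnown

end Pool.Agent.Q173.LB
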