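import Mathlib

/-!
# Pairs (dimension, degree) with nonzero L²-Betti numbers
-/

set_option autoImplicit false

namespace Pool.Agent.Q173.LB

/-- The set `R` of the pairs `(n, k)` such that some compact aspherical `n`-manifold with boundary
has a nonzero `k`-th L²-Betti number, with its known properties: products (`R` is a submonoid), the
interval, surfaces, and the vanishing of the top L²-Betti number in positive degrees. -/
structure IsRange (R : AddSubmonoid (ℕ × ℕ)) : Prop where
  interval : (1, 0) ∈ R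
  surface : (2, 1) ∈ R
  top : ∀ n k, (n, k) ∈ R → k ≠ 0 → k + 1 ≤ n

/-- The least dimension `n` with `(n, k)` in `R`. -/
noncomputable def low (R : AddSubmonoid (ℕ × ℕ)) (k : ℕ) : ℕ := sInf {n | (n, k) ∈ R}

/-- In `R`, different from zero, and not a sum of two elements of `R` different from zero. -/
def Indecomposable (R : AddSubmonoid (ℕ × ℕ)) (x : ℕ × ℕ) : Prop :=
  x ∈ R ∧ x ≠ 0 ∧ ∀ y ∈ R, ∀ z ∈ R, x = y + z → y = 0 ∨ z = 0

variable {R : AddSubmonoid (ℕ × ℕ)}

namespace IsRange

variable (hR : IsRange R)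

include hR

lemma zero_mem (n : ℕ) : (n, 0) ∈ R := by
  induction n with
  | zero => exact R.zero_mem
  | succ n ih => simpa using R.add_mem ih hR.interval

lemma mono {n k l : ℕ} (h : (n, k) ∈ R) (hkl : n ≤ l) : (l, k) ∈ R := by
  obtain ⟨d, rfl⟩ := Nat.exists_eq_add_of_le hkl
  simpa using R.add_mem h (hR.zero_mem d)

lemma two (k : ℕ) : (2 * k, k) ∈ R := by
  have := R.nsmul_mem hR.surface k
  simpa [mul_comm] using this

lemma low_mem (k : ℕ) : (low R k, k) ∈ R := Nat.sInf_mem (s := {n | (n, k) ∈ R}) ⟨_, hR.two k⟩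

lemma low_le_two (k : ℕ) : low R k ≤ 2 * k := Nat.sInf_le (hR.two k)

lemma mem_iff (n k : ℕ) : (n, k) ∈ R ↔ low R k ≤ n :=
  ⟨fun h => Nat.sInf_le h, fun h => hR.mono (hR.low_mem _) h⟩

lemma low_zero : low R 0 = 0 := by
  have := hR.low_le_two 0
  omega

lemma low_add (k l : ℕ) : low R (k + l) ≤ low R k + low R l :=
  Nat.sInf_le (R.add_mem (hR.low_mem k) (hR.low_mem l))

lemma low_mul (r k : ℕ) : low R (r * k) ≤ r * low R k := by
  induction r with
  | zero => simp [hR.low_zero]
  | succ r ih =>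
    rw [Nat.succ_mul, Nat.succ_mul]
    exact (hR.low_add _ _).trans (Nat.add_le_add_right ih _)

lemma top' {k : ℕ} (hk : k ≠ 0) : k + 1 ≤ low R k := hR.top _ k (hR.low_mem k) hk

/-- A failure spreads. -/
lemma spread {m₀ : ℕ} (h : low R m₀ < 2 * m₀) (m : ℕ) : low R m + m / m₀ ≤ 2 * m := by
  have h1 : low R (m / m₀ * m₀ + m % m₀) ≤ m / m₀ * low R m₀ + 2 * (m % m₀) :=
    (hR.low_add _ _).trans (Nat.add_le_add (hR.low_mul _ _) (hR.low_le_two _))
  have h2 : m / m₀ * m₀ + m % m₀ = m := by
    rw [mul_comm]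
    exact Nat.div_add_mod m m₀
  rw [h2] at h1
  have h3 : m / m₀ * low R m₀ + m / m₀ ≤ m / m₀ * (2 * m₀) := by
    calc m / m₀ * low R m₀ + m / m₀ = m / m₀ * (low R m₀ + 1) := by ring
      _ ≤ _ := Nat.mul_le_mul_left _ h
  have h4 : 2 * m = m / m₀ * (2 * m₀) + 2 * (m % m₀) := by
    calc 2 * m = 2 * (m / m₀ * m₀ + m % m₀) := by rw [h2]
      _ = _ := by ring
  omega

lemma pos_of_ne {x : ℕ × ℕ} (hx : x ∈ R) (h0 : x ≠ 0) : 1 ≤ x.1 := by
  obtain ⟨n, k⟩ := x
  by_cases hk : k = 0
  · subst hk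
    rcases Nat.eq_zero_or_pos n with rfl | hn
    · exact absurd rfl h0
    · exact hn
  · have := hR.top n k hx hk
    show 1 ≤ n
    omega

/-- The question. -/
theorem question : List.TFAE [
    ∀ n k, (n, k) ∈ R → 2 * k ≤ n,
    ∀ ε : ℝ, 0 < ε → ∀ M : ℕ, ∃ k, M ≤ k ∧ ∀ n, (n, k) ∈ R → (2 - ε) * k ≤ n,
    R = AddSubmonoid.closure {(1, 0), (2, 1)}] := by
  tfae_have 1 → 2 := by
    intro h ε hε M
    refine ⟨M, le_rfl, fun n hn => ?_⟩
    have h1 : (2 : ℝ) * M ≤ n := by exact_mod_cast h n M hn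
    have : (0 : ℝ) ≤ M := Nat.cast_nonneg _
    nlinarith
  tfae_have 2 → 1 := by
    intro h n₀ k₀ hnk
    by_contra hne
    push Not at hne
    have hlt : low R k₀ < 2 * k₀ := lt_of_le_of_lt ((hR.mem_iff _ _).1 hnk) hne
    have hk0 : 1 ≤ k₀ := by omega
    have hk0R : (0 : ℝ) < k₀ := by exact_mod_cast hk0
    obtain ⟨k, hk, hk'⟩ := h (1 / (4 * k₀)) (by positivity) (2 * k₀)
    have h1 := hR.spread hlt k
    have h2 := hk' _ (hR.low_mem k)
    have h3 : 2 ≤ k / k₀ := (Nat.le_div_iff_mul_le hk0).2 hk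
    have h4 : k < (k / k₀ + 1) * k₀ := by
      have e1 := Nat.div_add_mod k k₀
      have e2 := Nat.mod_lt k (show 0 < k₀ by omega)
      rw [add_mul, one_mul, mul_comm (k / k₀) k₀]
      omega
    have h5 : ((low R k : ℕ) : ℝ) + ((k / k₀ : ℕ) : ℝ) ≤ 2 * k := by exact_mod_cast h1
    have h6 : (k : ℝ) < (((k / k₀ : ℕ) : ℝ) + 1) * k₀ := by exact_mod_cast h4
    have h7 : (2 : ℝ) ≤ ((k / k₀ : ℕ) : ℝ) := by exact_mod_cast h3
    have h8 : 1 / (4 * (k₀ : ℝ)) * k < (((k / k₀ : ℕ) : ℝ) + 1) / 4 := by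
      calc 1 / (4 * (k₀ : ℝ)) * k < 1 / (4 * (k₀ : ℝ)) * ((((k / k₀ : ℕ) : ℝ) + 1) * k₀) :=
            mul_lt_mul_of_pos_left h6 (by positivity)
        _ = _ := by field_simp
    nlinarith
  tfae_have 1 → 3 := by
    intro h
    apply le_antisymm
    · rintro ⟨n, k⟩ hnk
      obtain ⟨d, rfl⟩ := Nat.exists_eq_add_of_le (h n k hnk)
      have h2 : (d, 0) ∈ AddSubmonoid.closure ({(1, 0), (2, 1)} : Set (ℕ × ℕ)) := by
        have := AddSubmonoid.nsmul_mem (AddSubmonoid.closure
          ({(1, 0), (2, 1)} : Set (ℕ × ℕ)))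
          (AddSubmonoid.subset_closure (by simp : (1, 0) ∈ _)) d
        simpa using this
      have h3 : (2 * k, k) ∈ AddSubmonoid.closure ({(1, 0), (2, 1)} : Set (ℕ × ℕ)) := by
        have := AddSubmonoid.nsmul_mem (AddSubmonoid.closure
          ({(1, 0), (2, 1)} : Set (ℕ × ℕ)))
          (AddSubmonoid.subset_closure (by simp : (2, 1) ∈ _)) k
        simpa [mul_comm] using this
      have := AddSubmonoid.add_mem _ h3 h2
      simpa using this
    · rw [AddSubmonoid.closure_le]
      rintro x (rfl | rfl)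
      · exact hR.interval
      · exact hR.surface
  tfae_have 3 → 1 := by
    intro h n k hnk
    have key : ∀ x ∈ R, 2 * x.2 ≤ x.1 := by
      intro x hx
      rw [h] at hx
      induction hx using AddSubmonoid.closure_induction with
      | mem x hx =>
        rcases hx with rfl | rfl <;> simp
      | zero => simp
      | add x y _ _ h1 h2 =>
        simp only [Prod.fst_add, Prod.snd_add]
        omega
    exact key _ hnk
  tfae_finish

lemma closure_indecomposable : AddSubmonoid.closure {x | Indecomposable R x} = R := by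
  apply le_antisymm
  · rw [AddSubmonoid.closure_le]
    exact fun x hx => hx.1
  · intro x hx
    obtain ⟨n, hn⟩ : ∃ n, x.1 = n := ⟨_, rfl⟩
    induction n using Nat.strong_induction_on generalizing x with
    | _ n ih =>
      by_cases h0 : x = 0
      · rw [h0]
        exact AddSubmonoid.zero_mem _
      by_cases hi : Indecomposable R x
      · exact AddSubmonoid.subset_closure hi
      · unfold Indecomposable at hi
        push Not at hi
        obtain ⟨y, hy, z, hz, hxyz, hy0, hz0⟩ := hi hx h0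
        have h1 := hR.pos_of_ne hy hy0
        have h2 := hR.pos_of_ne hz hz0
        have h3 : x.1 = y.1 + z.1 := by rw [hxyz]; rfl
        rw [hxyz]
        exact AddSubmonoid.add_mem _ (ih y.1 (by omega) hy rfl) (ih z.1 (by omega) hz rfl)

/-- Finite generation. -/
theorem finite_generation : List.TFAE [
    R.FG,
    {x | Indecomposable R x}.Finite,
    ∃ m₀ : ℕ, 1 ≤ m₀ ∧ ∀ m, low R m₀ * m ≤ low R m * m₀,
    ∃ m₀ : ℕ, 1 ≤ m₀ ∧ ∃ N : ℕ, ∀ m, N ≤ m → low R (m + m₀) = low R m + low R m₀] := by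
  tfae_have 1 → 2 := by
    rintro ⟨G, hG⟩
    refine G.finite_toSet.subset fun x hx => ?_
    obtain ⟨hx1, hx2, hx3⟩ := hx
    have key : ∀ y ∈ AddSubmonoid.closure (G : Set (ℕ × ℕ)), y = 0 ∨
        ∃ g ∈ G, ∃ z ∈ R, y = g + z ∧ g ≠ 0 := by
      intro y hy
      induction hy using AddSubmonoid.closure_induction with
      | mem y hy =>
        by_cases h0 : y = 0
        · exact Or.inl h0
        · exact Or.inr ⟨y, hy, 0, R.zero_mem, by simp, h0⟩
      | zero => exact Or.inl rfl
      | add y z hy hz h1 h2 =>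
        rcases h1 with rfl | ⟨g, hg, w, hw, hyw, hg0⟩
        · simpa using h2
        · right
          refine ⟨g, hg, w + z, R.add_mem hw (hG ▸ hz), ?_, hg0⟩
          rw [hyw, add_assoc]
    rcases key x (hG.symm ▸ hx1) with h | ⟨g, hg, z, hz, hxg, hg0⟩
    · exact absurd h hx2
    · rcases hx3 g (hG ▸ AddSubmonoid.subset_closure hg) z hz hxg with h | h
      · exact absurd h hg0
      · rw [hxg, h, add_zero]
        exact hg
  tfae_have 2 → 1 := by
    intro h
    refine ⟨h.toFinset, ?_⟩
    rw [h.coe_toFinset]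
    exact hR.closure_indecomposable
  tfae_have 1 → 3 := by
    rintro ⟨G, hG⟩
    have hGE : ∀ g ∈ G, g ∈ R := fun g hg => hG ▸ AddSubmonoid.subset_closure hg
    let G' := G.filter fun g => g.2 ≠ 0
    have hG' : G'.Nonempty := by
      by_contra hcon
      rw [Finset.not_nonempty_iff_eq_empty] at hcon
      have key : ∀ y ∈ AddSubmonoid.closure (G : Set (ℕ × ℕ)), y.2 = 0 := by
        intro y hy
        induction hy using AddSubmonoid.closure_induction with
        | mem y hy =>
          by_contra h0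
          have : y ∈ G' := Finset.mem_filter.2 ⟨hy, h0⟩
          rw [hcon] at this
          exact absurd this (Finset.notMem_empty y)
        | zero => rfl
        | add y z _ _ h1 h2 => rw [Prod.snd_add, h1, h2, add_zero]
      have := key (2, 1) (hG.symm ▸ hR.surface)
      simp at this
    obtain ⟨g₀, hg₀, hmin⟩ := G'.exists_min_image
      (fun g => (low R g.2 : ℚ) / g.2) hG'
    have hg0 : 1 ≤ g₀.2 := by
      have := (Finset.mem_filter.1 hg₀).2
      omega
    refine ⟨g₀.2, hg0, fun m => ?_⟩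
    have hg0Q : (0 : ℚ) < g₀.2 := by exact_mod_cast hg0
    have key : ∀ y ∈ R, low R g₀.2 * y.2 ≤ y.1 * g₀.2 := by
      intro y hy
      rw [← hG] at hy
      induction hy using AddSubmonoid.closure_induction with
      | mem y hy =>
        by_cases h0 : y.2 = 0
        · simp [h0]
        · have h1 := hmin y (Finset.mem_filter.2 ⟨hy, h0⟩)
          have hy0 : (0 : ℚ) < y.2 := by
            have : 1 ≤ y.2 := by omega
            exact_mod_cast this
          rw [div_le_div_iff₀ hg0Q hy0] at h1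
          have h2 : low R g₀.2 * y.2 ≤ low R y.2 * g₀.2 := by
            exact_mod_cast h1
          exact h2.trans (Nat.mul_le_mul_right _ ((hR.mem_iff y.1 y.2).1 (hGE y hy)))
      | zero => simp
      | add y z _ _ h1 h2 =>
        simp only [Prod.fst_add, Prod.snd_add]
        rw [mul_add, add_mul]
        exact Nat.add_le_add h1 h2
    simpa using key _ (hR.low_mem m)
  tfae_have 3 → 4 := by
    rintro ⟨m₀, hm₀, h⟩
    refine ⟨m₀, hm₀, ?_⟩
    let δ : ℕ → ℕ := fun m => low R m * m₀ - low R m₀ * m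
    have hδ : ∀ m, δ m + low R m₀ * m = low R m * m₀ := fun m => Nat.sub_add_cancel (h m)
    have hdec : ∀ m, δ (m + m₀) ≤ δ m := by
      intro m
      have h1 := hδ m
      have h2 := hδ (m + m₀)
      have h3 := Nat.mul_le_mul_right m₀ (hR.low_add m m₀)
      rw [add_mul] at h3
      rw [mul_add] at h2
      omega
    have hstab : ∀ r : ℕ, ∃ N, ∀ j, N ≤ j → δ (r + j * m₀ + m₀) = δ (r + j * m₀) := by
      intro r
      have hanti : Antitone fun j : ℕ => δ (r + j * m₀) := by
        apply antitone_nat_of_succ_le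
        intro j
        have := hdec (r + j * m₀)
        rwa [show r + (j + 1) * m₀ = r + j * m₀ + m₀ by ring]
      obtain ⟨N, hN⟩ : ∃ N, ∀ j, δ (r + N * m₀) ≤ δ (r + j * m₀) := by
        have h1 := Nat.sInf_mem (s := Set.range fun j : ℕ => δ (r + j * m₀)) ⟨_, 0, rfl⟩
        obtain ⟨N, hN⟩ := h1
        exact ⟨N, fun j => hN.le.trans (Nat.sInf_le ⟨j, rfl⟩)⟩
      refine ⟨N, fun j hj => ?_⟩
      have h3 : δ (r + (j + 1) * m₀) = δ (r + j * m₀) := by
        apply le_antisymm
        · exact hanti (Nat.le_succ j)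
        · exact le_trans (hanti hj) (hN (j + 1))
      rwa [show r + (j + 1) * m₀ = r + j * m₀ + m₀ by ring] at h3
    choose N hN using hstab
    refine ⟨(∑ r ∈ Finset.range m₀, N r + 1) * m₀, fun m hm => ?_⟩
    have hr : m % m₀ < m₀ := Nat.mod_lt _ hm₀
    have h1 : N (m % m₀) ≤ ∑ r ∈ Finset.range m₀, N r :=
      Finset.single_le_sum (f := N) (fun _ _ => Nat.zero_le _) (Finset.mem_range.2 hr)
    have h2 : (∑ r ∈ Finset.range m₀, N r + 1) ≤ m / m₀ := (Nat.le_div_iff_mul_le hm₀).2 hm
    have h3 := hN (m % m₀) (m / m₀) (by omega)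
    have h4 : m % m₀ + m / m₀ * m₀ = m := by
      rw [mul_comm]
      exact Nat.mod_add_div m m₀
    rw [h4] at h3
    have h5 := hδ m
    have h6 := hδ (m + m₀)
    have h7 : low R (m + m₀) * m₀ = (low R m + low R m₀) * m₀ := by
      rw [add_mul, ← h6, ← h5, h3]
      ring
    exact Nat.eq_of_mul_eq_mul_right hm₀ h7
  tfae_have 4 → 1 := by
    rintro ⟨m₀, hm₀, N, h⟩
    let G : Finset (ℕ × ℕ) := {(1, 0)} ∪
      ((Finset.range (N + m₀ + 1)).image fun m : ℕ => (low R m, m))
    refine ⟨G, le_antisymm ?_ ?_⟩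
    · rw [AddSubmonoid.closure_le]
      intro x hx
      simp only [G, Finset.coe_union, Finset.coe_singleton, Finset.coe_image, Set.mem_union,
        Set.mem_singleton_iff, Set.mem_image, Finset.mem_coe] at hx
      rcases hx with rfl | ⟨m, -, rfl⟩
      · exact hR.interval
      · exact hR.low_mem m
    · have key : ∀ m : ℕ, (low R m, m) ∈ AddSubmonoid.closure (G : Set (ℕ × ℕ)) := by
        intro m
        induction m using Nat.strong_induction_on with
        | _ m ih =>
          by_cases hm : m < N + m₀ + 1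
          · apply AddSubmonoid.subset_closure
            simp only [G, Finset.coe_union, Finset.coe_singleton, Finset.coe_image,
              Set.mem_union, Set.mem_singleton_iff, Set.mem_image, Finset.mem_coe]
            exact Or.inr ⟨m, Finset.mem_range.2 hm, rfl⟩
          · obtain ⟨d, rfl⟩ : ∃ d, m = d + m₀ := ⟨m - m₀, by omega⟩
            have h1 := ih d (by omega)
            have h2 := ih m₀ (by omega)
            rw [h d (by omega)]
            exact AddSubmonoid.add_mem _ h1 h2
      rintro ⟨n, k⟩ hnk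
      have h1 := (hR.mem_iff n k).1 hnk
      obtain ⟨d, rfl⟩ := Nat.exists_eq_add_of_le h1
      have h2 : (d, 0) ∈ AddSubmonoid.closure (G : Set (ℕ × ℕ)) := by
        have h3 : (1, 0) ∈ AddSubmonoid.closure (G : Set (ℕ × ℕ)) := by
          apply AddSubmonoid.subset_closure
          simp [G]
        have := AddSubmonoid.nsmul_mem _ h3 d
        simpa using this
      have := AddSubmonoid.add_mem _ (key k) h2
      simpa using this
  tfae_finish

end IsRange

end Pool.Agent.Q173.LB
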